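import Mathlib

/-!
# Rational psd completions on the 5-cycle (MP_dcc435_co)
-/

namespace Pool.Agent.Results.MP_dcc435_co.RationalPentagon

open Matrix

/-- `M` is a psd completion of `x`; the edge `i` of the 5-cycle joins the vertices `i` and
`i + 1` (mod 5) -/
def IsCompletion (x : Fin 5 → ℝ) (M : Matrix (Fin 5) (Fin 5) ℝ) : Prop :=
  M.PosSemidef ∧ (∀ i, M i i = 1) ∧ ∀ i, M i (i + 1) = x i

/-! ### Rationality of square roots -/

/-- `z` is a rational number -/
def IsRat (z : ℝ) : Prop := ∃ q : ℚ, (q : ℝ) = z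

lemma lin_indep {x : ℝ} (hx : ¬ IsRat x) {a b : ℚ} (h : (a : ℝ) + b * x = 0) : a = 0 ∧ b = 0 := by
  have hb : b = 0 := by
    by_contra hb
    apply hx
    refine ⟨-a / b, ?_⟩
    have hb' : (b : ℝ) ≠ 0 := by exact_mod_cast hb
    push_cast
    field_simp
    linarith
  refine ⟨?_, hb⟩
  rw [hb] at h
  simpa using h

/-- the conjugation argument -/
lemma rat_of_conj {x y : ℝ} {P R a b c d : ℚ} (hx : x ^ 2 = P) (hy : y ^ 2 = R)
    (h : (a : ℝ) + b * x + c * y + d * (x * y) = 0)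
    (h1 : (a : ℝ) - b * x + c * y - d * (x * y) ≠ 0)
    (h2 : (a : ℝ) + b * x - c * y - d * (x * y) ≠ 0)
    (h3 : (a : ℝ) - b * x - c * y + d * (x * y) ≠ 0) : IsRat x ∧ IsRat y := by
  by_cases hxr : IsRat x
  · refine ⟨hxr, ?_⟩
    by_contra hyr
    obtain ⟨q, rfl⟩ := hxr
    have h4 : ((a + b * q : ℚ) : ℝ) + ((c + d * q : ℚ) : ℝ) * y = 0 := by
      push_cast
      linarith
    obtain ⟨h5, h6⟩ := lin_indep hyr h4
    apply h2
    have h5' : ((a + b * q : ℚ) : ℝ) = 0 := by exact_mod_cast h5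
    have h6' : ((c + d * q : ℚ) : ℝ) = 0 := by exact_mod_cast h6
    push_cast at h5' h6'
    linear_combination h5' - y * h6'
  · exfalso
    by_cases hyr : IsRat y
    · obtain ⟨q, rfl⟩ := hyr
      have h4 : ((a + c * q : ℚ) : ℝ) + ((b + d * q : ℚ) : ℝ) * x = 0 := by
        push_cast
        linarith
      obtain ⟨h5, h6⟩ := lin_indep hxr h4
      apply h1
      have h5' : ((a + c * q : ℚ) : ℝ) = 0 := by exact_mod_cast h5
      have h6' : ((b + d * q : ℚ) : ℝ) = 0 := by exact_mod_cast h6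
      push_cast at h5' h6'
      linear_combination h5' - x * h6'
    · have hx0 : x ≠ 0 := fun h0 => hxr ⟨0, by rw [h0]; norm_num⟩
      have hP : (P : ℝ) ≠ 0 := by
        rw [← hx]
        positivity
      have hP' : P ≠ 0 := by exact_mod_cast hP
      by_cases hq : IsRat (x * y)
      · obtain ⟨q, hq⟩ := hq
        have hyx : y = (q / P : ℚ) * x := by
          push_cast
          rw [hq, ← hx]
          field_simp
        have h4 : ((a + d * q : ℚ) : ℝ) + ((b + c * (q / P) : ℚ) : ℝ) * x = 0 := by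
          push_cast
          push_cast at hyx
          rw [← h]
          rw [← hq]
          linear_combination (-(c : ℝ)) * hyx
        obtain ⟨h5, h6⟩ := lin_indep hxr h4
        apply h3
        have h5' : ((a + d * q : ℚ) : ℝ) = 0 := by exact_mod_cast h5
        have h6' : ((b + c * (q / P) : ℚ) : ℝ) = 0 := by exact_mod_cast h6
        push_cast at h5' h6' hyx
        rw [← hq]
        linear_combination h5' - x * h6' - (c : ℝ) * hyx
      · -- `1, x, y, xy` are independent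
        by_cases hcd : (c : ℝ) + d * x = 0
        · obtain ⟨h5, h6⟩ := lin_indep hxr hcd
          have h4 : (a : ℝ) + b * x = 0 := by
            rw [h5, h6] at h
            push_cast at h
            linarith
          obtain ⟨h7, h8⟩ := lin_indep hxr h4
          apply h3
          rw [h5, h6, h7, h8]
          push_cast
          ring
        · -- `y = u + v x`
          have hnorm : (c ^ 2 - d ^ 2 * P : ℚ) ≠ 0 := by
            intro h0
            have h0' : ((c : ℝ) + d * x) * (c - d * x) = 0 := by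
              have : ((c ^ 2 - d ^ 2 * P : ℚ) : ℝ) = 0 := by exact_mod_cast h0
              push_cast at this
              rw [← hx] at this
              linear_combination this
            rcases mul_eq_zero.1 h0' with h' | h'
            · exact hcd h'
            · have h'' : (c : ℝ) + ((-d : ℚ) : ℝ) * x = 0 := by
                push_cast
                linarith
              obtain ⟨h5, h6⟩ := lin_indep hxr h''
              apply hcd
              have h6' : d = 0 := by linarith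
              rw [h5, h6']
              push_cast
              ring
          have hnorm' : ((c ^ 2 - d ^ 2 * P : ℚ) : ℝ) ≠ 0 := by exact_mod_cast hnorm
          set u : ℚ := -(a * c - b * d * P) / (c ^ 2 - d ^ 2 * P) with hu
          set v : ℚ := -(b * c - a * d) / (c ^ 2 - d ^ 2 * P) with hv
          have hyuv : y = u + v * x := by
            rw [hu, hv]
            push_cast
            push_cast at hnorm'
            field_simp
            have : ((c : ℝ) + d * x) * y = -(a + b * x) := by linarith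
            linear_combination ((c : ℝ) - d * x) * this + (d ^ 2 * y + b * d) * hx
          have hR : ((u ^ 2 + v ^ 2 * P - R : ℚ) : ℝ) + ((2 * u * v : ℚ) : ℝ) * x = 0 := by
            push_cast
            rw [← hy, hyuv, ← hx]
            ring
          obtain ⟨-, h6⟩ := lin_indep hxr hR
          have huv : u = 0 ∨ v = 0 := by
            rcases mul_eq_zero.1 h6 with h' | h'
            · left; linarith
            · right; exact h'
          rcases huv with h' | h'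
          · apply hq
            refine ⟨v * P, ?_⟩
            rw [hyuv, h']
            push_cast
            rw [← hx]
            ring
          · apply hyr
            exact ⟨u, by rw [hyuv, h']; push_cast; ring⟩

/-! ### The rational point -/

/-- the Gram determinant of the triangle with entries `X, Y, c` -/
def g (c X Y : ℝ) : ℝ := 1 + 2 * c * X * Y - X ^ 2 - Y ^ 2 - c ^ 2

lemma g_eq (c X Y : ℝ) : g c X Y = (1 - X ^ 2) * (1 - c ^ 2) - (Y - c * X) ^ 2 := by
  unfold g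
  ring

lemma g_eq' (c X Y : ℝ) : g c X Y = (1 - Y ^ 2) * (1 - c ^ 2) - (X - c * Y) ^ 2 := by
  unfold g
  ring

/-- two intervals with ends `A ± √P`, `B ± √R` -/
lemma interval_rat (A B P R : ℚ) (hP : 0 ≤ P) (hR : 0 ≤ R) (X : ℝ)
    (h1 : (X - A) ^ 2 ≤ P) (h2 : (X - B) ^ 2 ≤ R) :
    ∃ q : ℚ, ((q : ℝ) - A) ^ 2 ≤ P ∧ ((q : ℝ) - B) ^ 2 ≤ R := by
  have hP' : (0 : ℝ) ≤ P := by exact_mod_cast hP
  have hR' : (0 : ℝ) ≤ R := by exact_mod_cast hR
  set x := √(P : ℝ) with hx
  set y := √(R : ℝ) with hy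
  have hx2 : x ^ 2 = P := Real.sq_sqrt hP'
  have hy2 : y ^ 2 = R := Real.sq_sqrt hR'
  have hx0 : 0 ≤ x := Real.sqrt_nonneg _
  have hy0 : 0 ≤ y := Real.sqrt_nonneg _
  have h1' : |X - A| ≤ x := abs_le_of_sq_le_sq (by rw [hx2]; exact h1) hx0
  have h2' : |X - B| ≤ y := abs_le_of_sq_le_sq (by rw [hy2]; exact h2) hy0
  rw [abs_le] at h1' h2'
  have key : ∀ z : ℝ, A - x ≤ z → z ≤ A + x → B - y ≤ z → z ≤ B + y →
      (z - A) ^ 2 ≤ P ∧ (z - B) ^ 2 ≤ R := by
    intro z a1 a2 a3 a4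
    rw [← hx2, ← hy2]
    exact ⟨sq_le_sq' (by linarith) (by linarith), sq_le_sq' (by linarith) (by linarith)⟩
  by_cases hlt : max ((A : ℝ) - x) (B - y) < min (A + x) (B + y)
  · obtain ⟨q, hq1, hq2⟩ := exists_rat_btwn hlt
    rw [max_lt_iff] at hq1
    rw [lt_min_iff] at hq2
    exact ⟨q, key q hq1.1.le hq2.1.le hq1.2.le hq2.2.le⟩
  · push Not at hlt
    rw [min_le_iff, le_max_iff, le_max_iff] at hlt
    -- `x` is rational whenever `x + y` is
    have hrat : ∀ r : ℚ, x + y = r → IsRat x := by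
      intro r hr
      by_cases hr0 : r = 0
      · rw [hr0] at hr
        push_cast at hr
        exact ⟨0, by push_cast; linarith⟩
      · have hr0' : (r : ℝ) ≠ 0 := by exact_mod_cast hr0
        refine ⟨(r + (P - R) / r) / 2, ?_⟩
        push_cast
        rw [← hr, ← hx2, ← hy2]
        rw [← hr] at hr0'
        field_simp
        ring
    rcases hlt with (h | h) | (h | h)
    · -- A + x ≤ A - x
      have : x = 0 := by linarith
      refine ⟨A, key _ ?_ ?_ ?_ ?_⟩ <;> linarith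
    · -- A + x ≤ B - y
      have e1 : x + y = ((B - A : ℚ) : ℝ) := by
        push_cast
        linarith
      obtain ⟨q, hq⟩ := hrat _ e1
      refine ⟨A + q, ?_⟩
      push_cast
      rw [hq]
      exact key _ (by linarith) (by linarith) (by linarith) (by linarith)
    · -- B + y ≤ A - x
      have e1 : x + y = ((A - B : ℚ) : ℝ) := by
        push_cast
        linarith
      obtain ⟨q, hq⟩ := hrat _ e1
      refine ⟨A - q, ?_⟩
      push_cast
      rw [hq]
      exact key _ (by linarith) (by linarith) (by linarith) (by linarith)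
    · have : y = 0 := by linarith
      refine ⟨B, key _ ?_ ?_ ?_ ?_⟩ <;> linarith

/-- the touching case -/
lemma touch (A B c P R : ℚ) (hc : (c : ℝ) ^ 2 < 1) (x y : ℝ) (hx0 : 0 < x) (hy0 : 0 < y)
    (hx2 : x ^ 2 = P) (hy2 : y ^ 2 = R) (hA1 : -1 ≤ A - x) (hA2 : A + x ≤ 1)
    (hB1 : -1 ≤ (B : ℝ) - y)
    (hall : ∀ X : ℝ, A - x ≤ X → X ≤ A + x → B + y ≤ c * X - √((1 - X ^ 2) * (1 - c ^ 2)))
    (X₀ Y₀ : ℝ) (h1 : A - x ≤ X₀) (h2 : X₀ ≤ A + x) (h4 : Y₀ ≤ B + y)
    (h5 : 0 ≤ g c X₀ Y₀) :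
    ∃ X Y : ℚ, ((X : ℝ) - A) ^ 2 ≤ P ∧ ((Y : ℝ) - B) ^ 2 ≤ R ∧ 0 ≤ g c X Y := by
  set Z : ℝ := B + y with hZ
  have hs : ∀ X : ℝ, A - x ≤ X → X ≤ A + x → 0 ≤ (1 - X ^ 2) * (1 - (c : ℝ) ^ 2) := by
    intro X a1 a2
    apply mul_nonneg
    · nlinarith
    · linarith
  -- below the lower arc
  have hbelow : ∀ X Y : ℝ, A - x ≤ X → X ≤ A + x → Y < Z → g c X Y < 0 := by
    intro X Y a1 a2 a3
    rw [g_eq]
    have b1 := hall X a1 a2
    have b2 := Real.sqrt_nonneg ((1 - X ^ 2) * (1 - (c : ℝ) ^ 2))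
    have b3 := Real.sq_sqrt (hs X a1 a2)
    nlinarith
  have hon : ∀ X : ℝ, A - x ≤ X → X ≤ A + x → g c X Z ≤ 0 := by
    intro X a1 a2
    rw [g_eq]
    have b1 := hall X a1 a2
    have b2 := Real.sqrt_nonneg ((1 - X ^ 2) * (1 - (c : ℝ) ^ 2))
    have b3 := Real.sq_sqrt (hs X a1 a2)
    nlinarith
  have hYZ : Y₀ = Z := by
    rcases h4.lt_or_eq with h | h
    · have := hbelow X₀ Y₀ h1 h2 h
      linarith
    · exact h
  rw [hYZ] at h5
  have hg0 : g c X₀ Z = 0 := le_antisymm (hon X₀ h1 h2) h5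
  -- `-1 < Z < 1`
  have hZ1 : -1 < Z := by linarith
  have hX0sq : X₀ ^ 2 ≤ 1 := by nlinarith
  have hZ2 : Z < 1 := by
    have b1 := hall X₀ h1 h2
    have b2 := Real.sqrt_nonneg ((1 - X₀ ^ 2) * (1 - (c : ℝ) ^ 2))
    have b3 : (c : ℝ) * X₀ < 1 := by nlinarith [sq_nonneg ((c : ℝ) - X₀)]
    linarith
  have he0 : 0 < (1 - Z ^ 2) * (1 - (c : ℝ) ^ 2) := by
    apply mul_pos
    · nlinarith
    · linarith
  set e := √((1 - Z ^ 2) * (1 - (c : ℝ) ^ 2)) with he
  have he1 : 0 < e := Real.sqrt_pos.2 he0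
  have he2 : e ^ 2 = (1 - Z ^ 2) * (1 - (c : ℝ) ^ 2) := Real.sq_sqrt he0.le
  have hgZ : ∀ X : ℝ, g c X Z = e ^ 2 - (X - c * Z) ^ 2 := by
    intro X
    rw [g_eq', he2]
  -- the touching point is a corner and the other corner is outside
  have hcorner : (X₀ = A + x ∧ g c (A - x) Z < 0) ∨ (X₀ = A - x ∧ g c (A + x) Z < 0) := by
    rw [hgZ] at hg0
    have h6 : (X₀ - c * Z - e) * (X₀ - c * Z + e) = 0 := by linarith
    rcases mul_eq_zero.1 h6 with h6 | h6
    · right
      have h7 : X₀ = A - x := by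
        by_contra hne
        have hlt : A - x < X₀ := lt_of_le_of_ne h1 (Ne.symm hne)
        set X := max (A - x) (X₀ - e / 2) with hX
        have a1 : A - x ≤ X := le_max_left _ _
        have a2 : X₀ - e / 2 ≤ X := le_max_right _ _
        have a3 : X < X₀ := max_lt hlt (by linarith)
        have a4 := hon X a1 (by linarith)
        rw [hgZ] at a4
        nlinarith
      refine ⟨h7, ?_⟩
      rw [hgZ]
      nlinarith
    · left
      have h7 : X₀ = A + x := by
        by_contra hne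
        have hlt : X₀ < A + x := lt_of_le_of_ne h2 hne
        set X := min (A + x) (X₀ + e / 2) with hX
        have a1 : X ≤ A + x := min_le_left _ _
        have a2 : X ≤ X₀ + e / 2 := min_le_right _ _
        have a3 : X₀ < X := lt_min hlt (by linarith)
        have a4 := hon X (by linarith) a1
        rw [hgZ] at a4
        nlinarith
      refine ⟨h7, ?_⟩
      rw [hgZ]
      nlinarith
  -- signed version
  obtain ⟨w, hw2, hwX, hwg, hwb⟩ : ∃ w : ℝ, w ^ 2 = P ∧ X₀ = A + w ∧ g c (A - w) Z < 0 ∧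
      (A - x ≤ A - w ∧ A - w ≤ A + x) := by
    rcases hcorner with ⟨h6, h7⟩ | ⟨h6, h7⟩
    · exact ⟨x, hx2, h6, h7, by linarith, by linarith⟩
    · refine ⟨-x, by rw [neg_sq, hx2], by linarith, ?_, by linarith, by linarith⟩
      rw [sub_neg_eq_add]
      exact h7
  have hyZ : (B : ℝ) - y < Z := by linarith
  have k1 := hbelow X₀ (B - y) h1 h2 hyZ
  have k2 := hbelow (A - w) (B - y) hwb.1 hwb.2 hyZ
  rw [hwX] at hg0 k1
  have hrat := rat_of_conj (x := w) (y := y) (P := P) (R := R)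
    (a := 1 + 2 * c * A * B - A ^ 2 - B ^ 2 - P - R - c ^ 2)
    (b := 2 * c * B - 2 * A) (c := 2 * c * A - 2 * B) (d := 2 * c) hw2 hy2
    (by
      push_cast
      rw [← hg0, hZ]
      unfold g
      linear_combination hw2 + hy2)
    (by
      intro h0
      push_cast at h0
      apply hwg.ne
      rw [hZ]
      unfold g
      linear_combination h0 - hw2 - hy2)
    (by
      intro h0
      push_cast at h0
      apply k1.ne
      unfold g
      linear_combination h0 - hw2 - hy2)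
    (by
      intro h0
      push_cast at h0
      apply k2.ne
      unfold g
      linear_combination h0 - hw2 - hy2)
  obtain ⟨⟨q, hq⟩, ⟨r, hr⟩⟩ := hrat
  refine ⟨A + q, B + r, ?_, ?_, ?_⟩
  · push_cast
    rw [hq, add_sub_cancel_left, hw2]
  · push_cast
    rw [hr, add_sub_cancel_left, hy2]
  · push_cast
    rw [hq, hr]
    rw [hZ] at hg0
    exact hg0.ge

/-- the nondegenerate case -/
lemma exists_point (A B c P R : ℚ) (hc : (c : ℝ) ^ 2 < 1) (hP : 0 < P) (hR : 0 < R)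
    (hXb : ∀ X : ℝ, (X - A) ^ 2 ≤ P → X ^ 2 ≤ 1) (hYb : ∀ Y : ℝ, (Y - B) ^ 2 ≤ R → Y ^ 2 ≤ 1)
    (X₀ Y₀ : ℝ) (h1 : (X₀ - A) ^ 2 ≤ P) (h2 : (Y₀ - B) ^ 2 ≤ R) (h3 : 0 ≤ g c X₀ Y₀) :
    ∃ X Y : ℚ, ((X : ℝ) - A) ^ 2 ≤ P ∧ ((Y : ℝ) - B) ^ 2 ≤ R ∧ 0 ≤ g c X Y := by
  have hP' : (0 : ℝ) < P := by exact_mod_cast hP
  have hR' : (0 : ℝ) < R := by exact_mod_cast hR
  obtain ⟨x, hx0, hx2⟩ : ∃ x : ℝ, 0 < x ∧ x ^ 2 = P :=
    ⟨√(P : ℝ), Real.sqrt_pos.2 hP', Real.sq_sqrt hP'.le⟩
  obtain ⟨y, hy0, hy2⟩ : ∃ y : ℝ, 0 < y ∧ y ^ 2 = R :=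
    ⟨√(R : ℝ), Real.sqrt_pos.2 hR', Real.sq_sqrt hR'.le⟩
  have hA1 : -1 ≤ A - x := by
    have := hXb (A - x) (by rw [← hx2]; apply le_of_eq; ring)
    nlinarith
  have hA2 : A + x ≤ 1 := by
    have := hXb (A + x) (by rw [← hx2]; apply le_of_eq; ring)
    nlinarith
  have hB1 : -1 ≤ B - y := by
    have := hYb (B - y) (by rw [← hy2]; apply le_of_eq; ring)
    nlinarith
  have hB2 : B + y ≤ 1 := by
    have := hYb (B + y) (by rw [← hy2]; apply le_of_eq; ring)
    nlinarith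
  have h1' : |X₀ - A| ≤ x := abs_le_of_sq_le_sq (by rw [hx2]; exact h1) hx0.le
  have h2' : |Y₀ - B| ≤ y := abs_le_of_sq_le_sq (by rw [hy2]; exact h2) hy0.le
  rw [abs_le] at h1' h2'
  have hs : ∀ X : ℝ, A - x ≤ X → X ≤ A + x → 0 ≤ (1 - X ^ 2) * (1 - (c : ℝ) ^ 2) := by
    intro X a1 a2
    apply mul_nonneg
    · nlinarith
    · linarith
  set S : ℝ → ℝ := fun X => √((1 - X ^ 2) * (1 - (c : ℝ) ^ 2)) with hS
  have hScont : Continuous S := by
    rw [hS]
    fun_prop
  by_cases hstrict : ∃ X : ℝ, A - x ≤ X ∧ X ≤ A + x ∧ c * X - S X < B + y ∧ B - y < c * X + S X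
  · obtain ⟨X₁, a1, a2, a3, a4⟩ := hstrict
    set O : Set ℝ := {X | c * X - S X < B + y} ∩ {X | B - y < c * X + S X} with hO
    have hOo : IsOpen O := by
      apply IsOpen.inter
      · exact isOpen_lt (by fun_prop) continuous_const
      · exact isOpen_lt continuous_const (by fun_prop)
    have hcl : X₁ ∈ closure (Set.Ioo ((A : ℝ) - x) (A + x)) := by
      rw [closure_Ioo (by linarith)]
      exact ⟨a1, a2⟩
    rw [mem_closure_iff] at hcl
    have hne := hcl O hOo ⟨a3, a4⟩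
    obtain ⟨q, hq⟩ := Rat.denseRange_cast.exists_mem_open (hOo.inter isOpen_Ioo) hne
    obtain ⟨⟨b1, b2⟩, b3, b4⟩ := hq
    have b1' : c * (q : ℝ) - S q < B + y := b1
    have b2' : B - y < c * (q : ℝ) + S q := b2
    have hSpos : 0 < S q := by
      rw [hS]
      apply Real.sqrt_pos.2
      apply mul_pos
      · nlinarith
      · linarith
    have hSsq : S q ^ 2 = (1 - (q : ℝ) ^ 2) * (1 - (c : ℝ) ^ 2) := Real.sq_sqrt (hs q b3.le b4.le)
    have hlt : max (c * (q : ℝ) - S q) (B - y) < min (c * (q : ℝ) + S q) (B + y) := by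
      rw [max_lt_iff, lt_min_iff, lt_min_iff]
      exact ⟨⟨by linarith, b1'⟩, b2', by linarith⟩
    obtain ⟨r, hr1, hr2⟩ := exists_rat_btwn hlt
    rw [max_lt_iff] at hr1
    rw [lt_min_iff] at hr2
    refine ⟨q, r, ?_, ?_, ?_⟩
    · rw [← hx2]
      exact sq_le_sq' (by linarith) (by linarith)
    · rw [← hy2]
      exact sq_le_sq' (by linarith [hr1.2]) (by linarith [hr2.2])
    · rw [g_eq, ← hSsq]
      have : ((r : ℝ) - c * q) ^ 2 ≤ S q ^ 2 :=
        sq_le_sq' (by linarith [hr1.1]) (by linarith [hr2.1])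
      linarith
  · push Not at hstrict
    -- one of the two arcs is outside over the whole range
    have hdich : (∀ X : ℝ, A - x ≤ X → X ≤ A + x → B + y ≤ c * X - S X) ∨
        (∀ X : ℝ, A - x ≤ X → X ≤ A + x → c * X + S X ≤ B - y) := by
      by_contra hcon
      push Not at hcon
      obtain ⟨⟨X₁, a1, a2, a3⟩, ⟨X₂, b1, b2, b3⟩⟩ := hcon
      have a4 := hstrict X₁ a1 a2 a3
      have b4 : B + y ≤ c * X₂ - S X₂ := by
        by_contra hcon
        push Not at hcon
        have := hstrict X₂ b1 b2 hcon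
        linarith
      have n1 : 0 ≤ S X₁ := Real.sqrt_nonneg _
      have n2 : 0 ≤ S X₂ := Real.sqrt_nonneg _
      -- the point with `c X = B` between them
      have hpos : 0 < c * X₂ - c * X₁ := by linarith
      set t := (B - c * X₁) / (c * X₂ - c * X₁) with ht
      have ht0 : 0 ≤ t := div_nonneg (by linarith) hpos.le
      have ht1 : t ≤ 1 := by
        rw [ht, div_le_one hpos]
        linarith
      have hcX : c * ((1 - t) * X₁ + t * X₂) = B := by
        have : t * (c * X₂ - c * X₁) = B - c * X₁ := by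
          rw [ht, div_mul_cancel₀ _ hpos.ne']
        linear_combination this
      have c1 : A - x ≤ (1 - t) * X₁ + t * X₂ := by nlinarith
      have c2 : (1 - t) * X₁ + t * X₂ ≤ A + x := by nlinarith
      have n3 : 0 ≤ S ((1 - t) * X₁ + t * X₂) := Real.sqrt_nonneg _
      have := hstrict _ c1 c2 (by rw [hcX]; linarith)
      rw [hcX] at this
      linarith
    rcases hdich with hd | hd
    · exact touch A B c P R hc x y hx0 hy0 hx2 hy2 hA1 hA2 hB1 hd X₀ Y₀ (by linarith) (by linarith)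
        (by linarith) h3
    · have hcneg : (((-c : ℚ)) : ℝ) ^ 2 < 1 := by
        push_cast
        rw [neg_sq]
        exact hc
      obtain ⟨X, Y, e1, e2, e3⟩ := touch A (-B) (-c) P R hcneg x y hx0 hy0 hx2 hy2 hA1 hA2
        (by push_cast; linarith)
        (by
          intro X a1 a2
          have := hd X a1 a2
          rw [hS] at this
          push_cast
          rw [neg_sq]
          simp only at this
          linarith)
        X₀ (-Y₀) (by linarith) (by linarith) (by push_cast; linarith)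
        (by
          unfold g at h3 ⊢
          push_cast
          linarith)
      refine ⟨X, -Y, e1, ?_, ?_⟩
      · push_cast at e2 ⊢
        have : (-(Y : ℝ) - B) ^ 2 = (Y - -B) ^ 2 := by ring
        rw [this]
        exact e2
      · unfold g at e3 ⊢
        push_cast at e3 ⊢
        linarith

/-! ### Chordal completion -/

/-- a regression coefficient -/
lemma exists_reg (a b s : ℚ) (hb : 0 ≤ b) (ha : 0 ≤ a) (h : s ^ 2 ≤ a * b) :
    ∃ p : ℚ, p * b = s ∧ 0 ≤ a - p * s := by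
  rcases hb.eq_or_lt with rfl | hb
  · have hs : s = 0 := by
      rw [mul_zero] at h
      exact pow_eq_zero_iff (two_ne_zero) |>.1 (le_antisymm h (sq_nonneg s))
    exact ⟨0, by rw [hs]; ring, by simpa using ha⟩
  · refine ⟨s / b, div_mul_cancel₀ _ hb.ne', ?_⟩
    have h1 : s / b * s = s ^ 2 / b := by ring
    rw [h1, sub_nonneg, div_le_iff₀ hb]
    exact h

/-- a rational completion from rational chord entries `X = x₁₃`, `Y = x₁₄` -/
lemma chordal (c : Fin 5 → ℚ) (X Y : ℚ) (hc : ∀ i, c i ^ 2 ≤ 1) (hX1 : X ^ 2 ≤ 1) (hY1 : Y ^ 2 ≤ 1)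
    (hX : (X - c 0 * c 1) ^ 2 ≤ (1 - c 0 ^ 2) * (1 - c 1 ^ 2))
    (hY : (Y - c 3 * c 4) ^ 2 ≤ (1 - c 3 ^ 2) * (1 - c 4 ^ 2))
    (hg : 0 ≤ 1 + 2 * c 2 * X * Y - X ^ 2 - Y ^ 2 - c 2 ^ 2) :
    ∃ M : Matrix (Fin 5) (Fin 5) ℚ,
      IsCompletion (fun i => (c i : ℝ)) (M.map (fun q : ℚ => (q : ℝ))) := by
  obtain ⟨p, hp1, hp2⟩ := exists_reg (1 - c 0 ^ 2) (1 - X ^ 2) (c 1 - c 0 * X) (by linarith)
    (by linarith [hc 0]) (by nlinarith)
  obtain ⟨q, hq1, hq2⟩ := exists_reg (1 - X ^ 2) (1 - Y ^ 2) (c 2 - X * Y) (by linarith)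
    (by linarith) (by nlinarith)
  obtain ⟨r, hr1, hr2⟩ := exists_reg (1 - Y ^ 2) (1 - c 4 ^ 2) (c 3 - Y * c 4) (by linarith [hc 4])
    (by linarith) (by nlinarith)
  -- the remaining entries
  set u := c 0 * Y + p * (c 2 - X * Y) with hu
  set v := c 0 * c 4 + p * q * (c 3 - Y * c 4) with hv
  set w := X * c 4 + q * (c 3 - Y * c 4) with hw
  set M : Matrix (Fin 5) (Fin 5) ℚ :=
    !![1, c 0, X, Y, c 4;
       c 0, 1, c 1, u, v;
       X, c 1, 1, c 2, w;
       Y, u, c 2, 1, c 3;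
       c 4, v, w, c 3, 1] with hM
  refine ⟨M, ?_, ?_, ?_⟩
  · apply Matrix.PosSemidef.of_dotProduct_mulVec_nonneg
    · ext i j
      fin_cases i <;> fin_cases j <;> simp [hM]
    · intro z
      have hp1' : (p : ℝ) * (1 - X ^ 2) = c 1 - c 0 * X := by exact_mod_cast hp1
      have hq1' : (q : ℝ) * (1 - Y ^ 2) = c 2 - X * Y := by exact_mod_cast hq1
      have hr1' : (r : ℝ) * (1 - c 4 ^ 2) = c 3 - Y * c 4 := by exact_mod_cast hr1
      have hp2' : (0 : ℝ) ≤ (1 - c 0 ^ 2) - p * (c 1 - c 0 * X) := by exact_mod_cast hp2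
      have hq2' : (0 : ℝ) ≤ (1 - X ^ 2) - q * (c 2 - X * Y) := by exact_mod_cast hq2
      have hr2' : (0 : ℝ) ≤ (1 - Y ^ 2) - r * (c 3 - Y * c 4) := by exact_mod_cast hr2
      have h4 : (0 : ℝ) ≤ 1 - (c 4 : ℝ) ^ 2 := by
        have := hc 4
        have h' : (c 4 : ℝ) ^ 2 ≤ 1 := by exact_mod_cast this
        linarith
      have key : star z ⬝ᵥ (M.map (fun q : ℚ => (q : ℝ)) *ᵥ z) =
          (z 0 + c 0 * z 1 + X * z 2 + Y * z 3 + c 4 * z 4) ^ 2 +
          ((1 - c 0 ^ 2) - p * (c 1 - c 0 * X)) * z 1 ^ 2 +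
          ((1 - X ^ 2) - q * (c 2 - X * Y)) * (z 2 + p * z 1) ^ 2 +
          ((1 - Y ^ 2) - r * (c 3 - Y * c 4)) * (z 3 + q * (z 2 + p * z 1)) ^ 2 +
          (1 - c 4 ^ 2) * (z 4 + r * (z 3 + q * (z 2 + p * z 1))) ^ 2 := by
        simp only [dotProduct, mulVec, Fin.sum_univ_five, Matrix.map_apply, hM, hu, hv, hw]
        simp
        linear_combination (-(2 * z 1 * z 2 + p * z 1 ^ 2)) * hp1' -
          (2 * z 3 * (z 2 + p * z 1) + q * (z 2 + p * z 1) ^ 2) * hq1' -
          (2 * z 4 * (z 3 + q * (z 2 + p * z 1)) + r * (z 3 + q * (z 2 + p * z 1)) ^ 2) * hr1'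
      rw [key]
      positivity
  · intro i
    fin_cases i <;> simp [hM]
  · intro i
    fin_cases i <;> simp [hM]

/-! ### Assembly -/

lemma psd_three {M : Matrix (Fin 5) (Fin 5) ℝ} (hM : M.PosSemidef) (h1 : ∀ i, M i i = 1)
    (i j k : Fin 5) : 0 ≤ 1 + 2 * M i j * M j k * M i k - M i j ^ 2 - M j k ^ 2 - M i k ^ 2 := by
  have h := (hM.submatrix ![i, j, k]).det_nonneg
  have hs : ∀ a b, M a b = M b a := by
    intro a b
    have := hM.isHermitian.apply a b
    simpa using this.symm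
  rw [Matrix.det_fin_three] at h
  simp only [submatrix_apply, cons_val_zero, cons_val_one, cons_val_two, tail_cons, head_cons,
    h1] at h
  rw [hs j i, hs k i, hs k j] at h
  linarith

lemma psd_two {M : Matrix (Fin 5) (Fin 5) ℝ} (hM : M.PosSemidef) (h1 : ∀ i, M i i = 1)
    (i j : Fin 5) : M i j ^ 2 ≤ 1 := by
  have h := (hM.submatrix ![i, j]).det_nonneg
  have hs : M j i = M i j := by
    have := hM.isHermitian.apply i j
    simpa using this
  rw [Matrix.det_fin_two] at h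
  simp only [submatrix_apply, cons_val_zero, cons_val_one, h1] at h
  rw [hs] at h
  nlinarith

lemma sq_le_one_of {a b : ℚ} (ha : a ^ 2 ≤ 1) (hb : b ^ 2 ≤ 1) (X : ℝ)
    (h : (X - a * b) ^ 2 ≤ (1 - (a : ℝ) ^ 2) * (1 - (b : ℝ) ^ 2)) : X ^ 2 ≤ 1 := by
  have ha' : (a : ℝ) ^ 2 ≤ 1 := by exact_mod_cast ha
  have hb' : (b : ℝ) ^ 2 ≤ 1 := by exact_mod_cast hb
  rcases ha'.lt_or_eq with h1 | h1
  · have h2 : ((b : ℝ) - a * X) ^ 2 ≤ (1 - (a : ℝ) ^ 2) * (1 - X ^ 2) := by nlinarith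
    have h3 : 0 ≤ (1 - (a : ℝ) ^ 2) * (1 - X ^ 2) := le_trans (sq_nonneg _) h2
    have h4 : 0 ≤ 1 - X ^ 2 := nonneg_of_mul_nonneg_right h3 (by linarith)
    linarith
  · rw [h1, sub_self, zero_mul] at h
    have h2 : X - a * b = 0 := pow_eq_zero_iff (two_ne_zero) |>.1 (le_antisymm h (sq_nonneg _))
    have h3 : X = a * b := by linarith
    rw [h3, mul_pow, h1]
    linarith

/-- the theorem when the entry on the edge `{2, 3}` has absolute value one or all entries have
absolute value less than one -/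
lemma main_case (c : Fin 5 → ℚ) (hcase : c 2 ^ 2 = 1 ∨ ∀ i, c i ^ 2 < 1)
    (M : Matrix (Fin 5) (Fin 5) ℝ) (hM : IsCompletion (fun i => (c i : ℝ)) M) :
    ∃ M : Matrix (Fin 5) (Fin 5) ℚ,
      IsCompletion (fun i => (c i : ℝ)) (M.map (fun q : ℚ => (q : ℝ))) := by
  obtain ⟨hpsd, hd, he⟩ := hM
  have hs : ∀ a b, M a b = M b a := by
    intro a b
    have := hpsd.isHermitian.apply a b
    simpa using this.symm
  have e0 : M 0 1 = c 0 := he 0
  have e1 : M 1 2 = c 1 := he 1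
  have e2 : M 2 3 = c 2 := he 2
  have e3 : M 3 4 = c 3 := he 3
  have e4 : M 0 4 = c 4 := by
    rw [hs]
    exact he 4
  have hc : ∀ i, c i ^ 2 ≤ 1 := by
    intro i
    have := psd_two hpsd hd i (i + 1)
    rw [he i] at this
    change ((c i : ℚ) : ℝ) ^ 2 ≤ 1 at this
    exact_mod_cast this
  have t1 := psd_three hpsd hd 0 1 2
  have t2 := psd_three hpsd hd 0 2 3
  have t3 := psd_three hpsd hd 0 4 3
  rw [e0, e1] at t1
  rw [e2] at t2
  rw [e4, hs 4 3, e3] at t3
  have t1' : (M 0 2 - ((c 0 * c 1 : ℚ) : ℝ)) ^ 2 ≤ (((1 - c 0 ^ 2) * (1 - c 1 ^ 2) : ℚ) : ℝ) := by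
    push_cast
    linarith
  have t3' : (M 0 3 - ((c 3 * c 4 : ℚ) : ℝ)) ^ 2 ≤ (((1 - c 3 ^ 2) * (1 - c 4 ^ 2) : ℚ) : ℝ) := by
    push_cast
    linarith
  have hP : 0 ≤ (1 - c 0 ^ 2) * (1 - c 1 ^ 2) :=
    mul_nonneg (by linarith [hc 0]) (by linarith [hc 1])
  have hR : 0 ≤ (1 - c 3 ^ 2) * (1 - c 4 ^ 2) :=
    mul_nonneg (by linarith [hc 3]) (by linarith [hc 4])
  have hXb : ∀ X : ℝ, (X - ((c 0 * c 1 : ℚ) : ℝ)) ^ 2 ≤ (((1 - c 0 ^ 2) * (1 - c 1 ^ 2) : ℚ) : ℝ) →
      X ^ 2 ≤ 1 := by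
    intro X h
    push_cast at h
    exact sq_le_one_of (hc 0) (hc 1) X h
  have hYb : ∀ X : ℝ, (X - ((c 3 * c 4 : ℚ) : ℝ)) ^ 2 ≤ (((1 - c 3 ^ 2) * (1 - c 4 ^ 2) : ℚ) : ℝ) →
      X ^ 2 ≤ 1 := by
    intro X h
    push_cast at h
    exact sq_le_one_of (hc 3) (hc 4) X h
  have hpt : ∃ X Y : ℚ, ((X : ℝ) - ((c 0 * c 1 : ℚ) : ℝ)) ^ 2 ≤
      (((1 - c 0 ^ 2) * (1 - c 1 ^ 2) : ℚ) : ℝ) ∧
      ((Y : ℝ) - ((c 3 * c 4 : ℚ) : ℝ)) ^ 2 ≤ (((1 - c 3 ^ 2) * (1 - c 4 ^ 2) : ℚ) : ℝ) ∧
      0 ≤ g (c 2) X Y := by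
    rcases hcase with h2 | hlt
    · -- degenerate triangle
      have h2' : (c 2 : ℝ) ^ 2 = 1 := by exact_mod_cast h2
      have hY : M 0 3 = c 2 * M 0 2 := by
        have : (M 0 3 - c 2 * M 0 2) ^ 2 ≤ 0 := by nlinarith
        have := pow_eq_zero_iff (two_ne_zero) |>.1 (le_antisymm this (sq_nonneg _))
        linarith
      obtain ⟨q, hq1, hq2⟩ := interval_rat (c 0 * c 1) (c 2 * (c 3 * c 4)) _ _ hP hR (M 0 2) t1' (by
        rw [hY] at t3'
        push_cast at t3' ⊢
        nlinarith)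
      refine ⟨q, c 2 * q, hq1, ?_, ?_⟩
      · push_cast at hq2 ⊢
        have h5 : ((c 2 : ℝ) * q - c 3 * c 4) ^ 2 = ((q : ℝ) - c 2 * (c 3 * c 4)) ^ 2 := by
          linear_combination ((q : ℝ) ^ 2 - (c 3 * c 4) ^ 2) * h2'
        rw [h5]
        exact hq2
      · rw [g_eq, h2']
        push_cast
        rw [sub_self, sub_self]
        norm_num
    · have hc2 : (c 2 : ℝ) ^ 2 < 1 := by exact_mod_cast hlt 2
      refine exists_point (c 0 * c 1) (c 3 * c 4) (c 2) _ _ hc2 ?_ ?_ hXb hYb (M 0 2) (M 0 3)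
        t1' t3' ?_
      · exact mul_pos (by linarith [hlt 0]) (by linarith [hlt 1])
      · exact mul_pos (by linarith [hlt 3]) (by linarith [hlt 4])
      · unfold g
        linarith
  obtain ⟨X, Y, h1, h2, h3⟩ := hpt
  have hX1 := hXb X h1
  have hY1 := hYb Y h2
  refine chordal c X Y hc (by exact_mod_cast hX1) (by exact_mod_cast hY1) (by exact_mod_cast h1)
    (by exact_mod_cast h2) ?_
  unfold g at h3
  exact_mod_cast h3

/-- rotation of completions -/
lemma rotate {c : Fin 5 → ℝ} {M : Matrix (Fin 5) (Fin 5) ℝ} (hM : IsCompletion c M) (k : Fin 5) :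
    IsCompletion (fun i => c (i + k)) (M.submatrix (fun i => i + k) (fun i => i + k)) := by
  obtain ⟨h1, h2, h3⟩ := hM
  refine ⟨h1.submatrix _, fun i => h2 _, fun i => ?_⟩
  rw [submatrix_apply, add_right_comm]
  exact h3 _

/-- **Answer: yes.**  Every rational vector in the elliptope of the 5-cycle admits a rational psd
completion. -/
theorem result (x : Fin 5 → ℚ)
    (hx : ∃ M : Matrix (Fin 5) (Fin 5) ℝ, IsCompletion (fun i => (x i : ℝ)) M) :
    ∃ M : Matrix (Fin 5) (Fin 5) ℚ,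
      IsCompletion (fun i => (x i : ℝ)) (M.map (fun q : ℚ => (q : ℝ))) := by
  obtain ⟨M, hM⟩ := hx
  by_cases h : ∃ i, x i ^ 2 = 1
  · obtain ⟨i, hi⟩ := h
    obtain ⟨N, hN⟩ := main_case (fun j => x (j + (i - 2)))
      (Or.inl (by
        simp only [add_sub_cancel]
        exact hi)) _ (rotate hM (i - 2))
    refine ⟨N.submatrix (fun j => j + -(i - 2)) (fun j => j + -(i - 2)), ?_⟩
    have h1 := rotate hN (-(i - 2))
    have h2 : (fun j => ((x (j + -(i - 2) + (i - 2)) : ℚ) : ℝ)) = fun j => (x j : ℝ) := by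
      ext j
      rw [neg_add_cancel_right]
    rw [h2] at h1
    exact h1
  · push Not at h
    refine main_case x (Or.inr fun i => ?_) M hM
    have h1 := psd_two hM.1 hM.2.1 i (i + 1)
    rw [hM.2.2 i] at h1
    change ((x i : ℚ) : ℝ) ^ 2 ≤ 1 at h1
    have h2 : x i ^ 2 ≤ 1 := by exact_mod_cast h1
    exact lt_of_le_of_ne h2 (h i)

end Pool.Agent.Results.MP_dcc435_co.RationalPentagon
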